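import Pool.Agent.Helper71_MVD.ESBd

/-!
# Squad MVD, row ESB: the states of `B` for the pentagon of `EF`
-/

set_option autoImplicit false

namespace Pool.Agent.MVD.H71

open Pool.Agent.Helper14_MV Pool.Agent.Helper2_MV Pool.Agent.MVD

variable {s1 s2 r1 r2 h z : ℕ} {P1 P2 P3 Q α : List ℕ}

theorem la_one' {a b : ℕ} {A C : List ℕ} (hc : (A ++ b :: C).count b = 1)
    (h : LA a b (A ++ b :: C)) : a ∉ C := by
  rw [List.count_append, List.count_cons_self] at hc
  exact la_one (List.count_eq_zero.1 (by omega)) (List.count_eq_zero.1 (by omega)) h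

theorem la_filter {a b : ℕ} {p : ℕ → Bool} (ha : p a = true) {K : List ℕ}
    (h : LA a b (K.filter p)) : LA a b K := by
  obtain ⟨A, C, h1, h2⟩ := h
  obtain ⟨l1, l2, h3, h4, h5⟩ := List.filter_eq_append_iff.1 h1
  obtain ⟨m1, m2, h6, h7, h8, h9⟩ := List.filter_eq_cons_iff.1 h5
  refine ⟨l1 ++ m1, m2, by rw [h3, h6]; simp, fun h10 => h2 ?_⟩
  rw [← h9]
  exact List.mem_filter.2 ⟨h10, ha⟩

/-- the order of the letters in the main block of the given word -/
theorem Cfg.ord0 (H : Cfg s1 s2 r1 r2 h z P1 P2 P3 Q α) :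
    LA 6 (3 * h + 1) (B0 s1 s2 r1 r2 h z α 0) ∧ LA 3 (3 * h + 1) (B0 s1 s2 r1 r2 h z α 0) ∧
    ¬ LA 0 (3 * h + 1) (B0 s1 s2 r1 r2 h z α 0) ∧ ¬ Bfr (B0 s1 s2 r1 r2 h z α 0) 9 (3 * h + 1) ∧
    ¬ FA 0 (3 * z + 1) (B0 s1 s2 r1 r2 h z α 0) ∧
    (∀ f ∈ (P1 ++ (P2 ++ P3)) ++ Q, ¬ LA 3 (3 * f + 1) (B0 s1 s2 r1 r2 h z α 0)) ∧
    (∀ e ∈ (P1 ++ (P2 ++ P3)) ++ Q, FA 0 (3 * e + 1) (B0 s1 s2 r1 r2 h z α 0)) := by
  have F := bf_B0 H
  have h0 : 0 ∈ lab (pL s1 s2 r1 r2 h P1 P2 P3) (Q ++ [z]) := mem_lab.2 (Or.inl rfl)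
  have e1 : B0 s1 s2 r1 r2 h z α 0 =
      (6 :: 3 :: (3 * z + 1) :: 0 :: (α ++ [3, 6])) ++ (3 * h + 1) :: [9, 0] := by
    rw [H.B0_zero]
    simp
  have ch := F.cz h (mem_pS.2 (Or.inr (Or.inl rfl))) 0 h0
  rw [if_pos (Or.inl rfl)] at ch
  refine ⟨⟨_, _, e1, by simp⟩, ⟨_, _, e1, by simp⟩, ?_, ?_, ?_, ?_, ?_⟩
  · intro h1
    rw [e1] at h1 ch
    exact la_one' ch h1 (by simp)
  · rintro ⟨A, C, D, h1⟩
    have c9 := F.c9
    have e2 : B0 s1 s2 r1 r2 h z α 0 =
        (6 :: 3 :: (3 * z + 1) :: 0 :: (α ++ [3, 6, 3 * h + 1])) ++ 9 :: [0] := by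
      rw [H.B0_zero]
      simp
    have c9' := c9
    rw [e2, List.count_append, List.count_cons_self] at c9
    rw [h1, List.count_append, List.count_cons_self] at c9'
    obtain ⟨-, h2⟩ := split_uniq (List.count_eq_zero.1 (by omega))
      (List.count_eq_zero.1 (by omega)) (e2.symm.trans h1)
    cases C with
    | nil =>
      rw [List.nil_append, List.cons.injEq] at h2
      omega
    | cons c C =>
      have h3 := congrArg List.length h2
      simp at h3
  · rintro ⟨A, C, h1, h2⟩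
    rw [H.B0_zero] at h1
    rcases A with _ | ⟨a1, _ | ⟨a2, _ | ⟨a3, A⟩⟩⟩
    · rw [List.nil_append, List.cons.injEq] at h1
      exact absurd h1.1 (by norm_num)
    · rw [List.cons_append, List.nil_append, List.cons.injEq, List.cons.injEq] at h1
      exact absurd h1.2.1 (by norm_num)
    · rw [List.cons_append, List.cons_append, List.nil_append, List.cons.injEq, List.cons.injEq,
        List.cons.injEq] at h1
      exact absurd h1.2.2.1 (by omega)
    · rw [List.cons_append, List.cons_append, List.cons_append, List.cons.injEq, List.cons.injEq,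
        List.cons.injEq] at h1
      exact h2 (by rw [← h1.2.2.1]; simp)
  · intro f hf hl
    have c1 := F.cz f (mem_pS.2 (Or.inl hf)) 0 h0
    rw [if_pos (Or.inl rfl)] at c1
    obtain ⟨X, Y, hXY⟩ := List.append_of_mem (H.mem_alpha.2 hf)
    have e2 : B0 s1 s2 r1 r2 h z α 0 =
        (6 :: 3 :: (3 * z + 1) :: 0 :: X) ++ (3 * f + 1) :: (Y ++ [3, 6, 3 * h + 1, 9, 0]) := by
      rw [H.B0_zero, hXY]
      simp
    rw [e2] at c1 hl
    exact la_one' c1 hl (by simp)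
  · intro e he
    refine ⟨[6, 3, 3 * z + 1], α ++ [3, 6, 3 * h + 1, 9, 0], by rw [H.B0_zero]; simp, ?_⟩
    have h1 : e ≠ z := fun h3 => H.not_T (Or.inr (Or.inl h3)) he
    simp only [List.mem_cons, List.not_mem_nil, or_false]
    omega

/-- the word `E0` as an image of the given word -/
theorem Cfg.img0 (H : Cfg s1 s2 r1 r2 h z P1 P2 P3 Q α) :
    (Bw (lab (pL s1 s2 r1 r2 h P1 P2 P3) (Q ++ [z])) (B0 s1 s2 r1 r2 h z α)).flatMap
      (f1 s1 s2 r1 r2 h z) = EW 9 s1 s2 P1 P2 P3 Q (0 :: (α ++ [9, 0])) := by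
  have F := bf_B0 H
  have k1 := H.key s1
  have k2 := H.key s2
  have k3 := H.key h
  have k4 := H.key z
  have hz := H.hz
  rw [if_pos (rfl : s1 = s1)] at k1
  rw [if_pos (rfl : s2 = s2)] at k2
  rw [if_pos (rfl : h = h)] at k3
  rw [if_pos (rfl : z = z)] at k4
  have n1 : s1 ≠ s2 := fun hh => by rw [if_pos (hh.symm : s2 = s1)] at k1; omega
  have n2 : r1 ≠ s1 := fun hh => by rw [if_pos (hh : r1 = s1)] at k1; omega
  have n3 : r2 ≠ s1 := fun hh => by rw [if_pos (hh : r2 = s1)] at k1; omega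
  have n4 : r1 ≠ s2 := fun hh => by rw [if_pos (hh : r1 = s2)] at k2; omega
  have n5 : r2 ≠ s2 := fun hh => by rw [if_pos (hh : r2 = s2)] at k2; omega
  have n6 : h ≠ s1 := fun hh => by rw [if_pos (hh : h = s1)] at k1; omega
  have n7 : h ≠ s2 := fun hh => by rw [if_pos (hh : h = s2)] at k2; omega
  have n8 : h ≠ r1 := fun hh => by rw [if_pos (hh.symm : r1 = h)] at k3; omega
  have n9 : h ≠ r2 := fun hh => by rw [if_pos (hh.symm : r2 = h)] at k3; omega
  have n10 : z ≠ s1 := fun hh => by rw [if_pos (hh : z = s1)] at k1; omega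
  have n11 : z ≠ s2 := fun hh => by rw [if_pos (hh : z = s2)] at k2; omega
  have n12 : z ≠ r1 := fun hh => by rw [if_pos (hh.symm : r1 = z)] at k4; omega
  have n13 : z ≠ r2 := fun hh => by rw [if_pos (hh.symm : r2 = z)] at k4; omega
  have hs : ∀ r, SFr (B0 s1 s2 r1 r2 h z α r) := F.sf
  have ne9 : ¬ er h z 9 := by unfold er; omega
  have ne0 : ¬ er h z 0 := by unfold er; omega
  obtain ⟨p, hp⟩ : ∃ p : ℕ → Bool, p = fun c => decide (¬ er h z c) := ⟨_, rfl⟩
  have hpt : ∀ c, ¬ er h z c → p c = true := fun c hc => by rw [hp]; simpa using hc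
  have hpf : ∀ c, er h z c → ¬ p c = true := fun c hc => by rw [hp]; simpa using hc
  unfold EW Wk
  refine H.img1 _ _ ?_ ?_ ?_ ?_ ?_ ?_
  · intro i hi
    have hi1 : i ≠ h := fun h3 => H.not_T (Or.inl h3) hi
    have hi2 : i ≠ z := fun h3 => H.not_T (Or.inr (Or.inl h3)) hi
    obtain ⟨m1, m2, m3, m4⟩ := H.ne (mem_pS.2 (Or.inl hi))
    have hne : ¬ er h z (3 * i + 1) := by unfold er; omega
    rw [f1_sfr (hs _), ← hp, B0_succ, if_neg (by omega), if_neg (by omega),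
      List.filter_cons_of_pos (hpt _ hne), List.filter_nil, if_neg (by omega), Nat.add_sub_cancel]
    unfold kx
    rw [if_neg (by omega)]
  · rw [f1_sfr (hs _), ← hp, H.B0_zero, if_pos rfl]
    have ha : α.filter p = α := by
      rw [List.filter_eq_self]
      intro a ha
      apply hpt
      unfold er
      have h1 : a ≠ 3 * h + 1 := by
        rintro rfl
        exact H.not_T (Or.inl rfl) (H.mem_alpha.1 ha)
      have h2 : a ≠ 3 * z + 1 := by
        rintro rfl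
        exact H.not_T (Or.inr (Or.inl rfl)) (H.mem_alpha.1 ha)
      have h3 : a ≠ 3 := by
        rintro rfl
        exact H.alpha_small (by norm_num) (by norm_num) ha
      have h4 : a ≠ 6 := by
        rintro rfl
        exact H.alpha_small (by norm_num) (by norm_num) ha
      tauto
    have x3 : er h z 3 := Or.inl rfl
    have x6 : er h z 6 := Or.inr (Or.inl rfl)
    have xh : er h z (3 * h + 1) := Or.inr (Or.inr (Or.inl rfl))
    have xz : er h z (3 * z + 1) := Or.inr (Or.inr (Or.inr rfl))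
    rw [List.filter_cons_of_neg (hpf _ x6), List.filter_cons_of_neg (hpf _ x3),
      List.filter_cons_of_neg (hpf _ xz), List.filter_cons_of_pos (hpt _ ne0), List.filter_append,
      ha, List.filter_cons_of_neg (hpf _ x3), List.filter_cons_of_neg (hpf _ x6),
      List.filter_cons_of_neg (hpf _ xh), List.filter_cons_of_pos (hpt _ ne9),
      List.filter_cons_of_pos (hpt _ ne0), List.filter_nil]
  · rw [f1_sfr (hs _), f1_sfr (hs _), ← hp, B0_succ, B0_succ, if_pos (Or.inl rfl),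
      if_neg (by omega), if_pos (Or.inl rfl), List.filter_cons_of_pos (hpt _ ne9), List.filter_nil,
      List.append_nil, if_neg (by omega), Nat.add_sub_cancel]
    unfold kx
    rw [if_pos (Or.inl rfl)]
  · rw [f1_sfr (hs _), f1_sfr (hs _), ← hp, B0_succ, B0_succ, if_pos (Or.inr rfl),
      if_neg (by omega), if_pos (Or.inr rfl), List.filter_cons_of_pos (hpt _ ne9), List.filter_nil,
      List.append_nil, if_neg (by omega), Nat.add_sub_cancel]
    unfold kx
    rw [if_pos (Or.inr rfl)]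
  · have xh : er h z (3 * h + 1) := Or.inr (Or.inr (Or.inl rfl))
    rw [f1_sfr (hs _), ← hp, B0_succ, if_neg (by omega), if_neg (by omega),
      List.filter_cons_of_neg (hpf _ xh), List.filter_nil]
  · have xz : er h z (3 * z + 1) := Or.inr (Or.inr (Or.inr rfl))
    rw [f1_sfr (hs _), ← hp, B0_succ, if_neg (by omega), if_neg (by omega),
      List.filter_cons_of_neg (hpf _ xz), List.filter_nil]

/-- the blocks of the image -/
def Bt (s1 s2 r1 r2 h z : ℕ) (B : ℕ → List ℕ) (r : ℕ) : List ℕ :=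
  if r = s1 + 1 then (B (s1 + 1)).filter (fun c => decide (¬ er h z c)) ++
    (B (r1 + 1)).filter (fun c => decide (¬ er h z c))
  else if r = s2 + 1 then (B (s2 + 1)).filter (fun c => decide (¬ er h z c)) ++
    (B (r2 + 1)).filter (fun c => decide (¬ er h z c))
  else (B r).filter (fun c => decide (¬ er h z c))

theorem BF.imgB {B : ℕ → List ℕ} (F : BF s1 s2 r1 r2 h z P1 P2 P3 Q α B)
    (H : Cfg s1 s2 r1 r2 h z P1 P2 P3 Q α) :
    (Bw (lab (pL s1 s2 r1 r2 h P1 P2 P3) (Q ++ [z])) B).flatMap (f1 s1 s2 r1 r2 h z)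
      = Bw (lab (P1 ++ s1 :: (P2 ++ s2 :: P3)) Q) (Bt s1 s2 r1 r2 h z B) := by
  have k2 := H.key s2
  rw [if_pos (rfl : s2 = s2)] at k2
  have n1 : s1 ≠ s2 := fun hh => by rw [if_pos hh] at k2; omega
  refine H.img1 _ _ ?_ ?_ ?_ ?_ ?_ ?_
  · intro i hi
    obtain ⟨m1, m2, m3, m4⟩ := H.ne (mem_pS.2 (Or.inl hi))
    rw [f1_sfr (F.sf _)]
    unfold Bt
    rw [if_neg (by omega), if_neg (by omega)]
  · rw [f1_sfr (F.sf _)]
    unfold Bt
    rw [if_neg (by omega), if_neg (by omega)]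
  · rw [f1_sfr (F.sf _), f1_sfr (F.sf _)]
    unfold Bt
    rw [if_pos rfl]
  · rw [f1_sfr (F.sf _), f1_sfr (F.sf _)]
    unfold Bt
    rw [if_neg (by omega), if_pos rfl]
  · rw [f1_sfr (F.sf _), List.filter_eq_nil_iff]
    intro a ha
    have hq : h ∈ pL s1 s2 r1 r2 h P1 P2 P3 ++ (Q ++ [z]) := by unfold pL; simp
    rcases F.mem_blk hq ha with h1 | h1
    · subst h1
      have h2 := F.n9 (h + 1) (by simp)
      exact absurd ha (List.count_eq_zero.1 h2)
    · rw [h1.2]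
      have : er h z (3 * h + 1) := Or.inr (Or.inr (Or.inl rfl))
      simpa using this
  · rw [f1_sfr (F.sf _), List.filter_eq_nil_iff]
    intro a ha
    have hq : z ∈ pL s1 s2 r1 r2 h P1 P2 P3 ++ (Q ++ [z]) := by simp
    rcases F.mem_blk hq ha with h1 | h1
    · subst h1
      have h2 := F.n9 (z + 1) (by simp)
      exact absurd ha (List.count_eq_zero.1 h2)
    · rw [h1.2]
      have : er h z (3 * z + 1) := Or.inr (Or.inr (Or.inr rfl))
      simpa using this

theorem Bt_sfr {B : ℕ → List ℕ} (hB : ∀ r, SFr (B r)) (r : ℕ) : SFr (Bt s1 s2 r1 r2 h z B r) := by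
  intro c hc
  unfold Bt at hc
  split_ifs at hc
  · rw [List.mem_append] at hc
    rcases hc with hc | hc
    · exact hB _ c (List.mem_of_mem_filter hc)
    · exact hB _ c (List.mem_of_mem_filter hc)
  · rw [List.mem_append] at hc
    rcases hc with hc | hc
    · exact hB _ c (List.mem_of_mem_filter hc)
    · exact hB _ c (List.mem_of_mem_filter hc)
  · exact hB _ c (List.mem_of_mem_filter hc)

/-- the left part of the words `EW` -/
def pe (s1 s2 : ℕ) (P1 P2 P3 : List ℕ) : List ℕ :=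
  Bw ((P1 ++ s1 :: (P2 ++ s2 :: P3)).map (fun e => e + 1)) (fun r => [kx 9 s1 s2 (r - 1)])

/-- the right part of the words `EW` -/
def qe (s1 s2 : ℕ) (Q : List ℕ) : List ℕ :=
  2 :: Bw (Q.map (fun e => e + 1)) (fun r => [kx 9 s1 s2 (r - 1)])

theorem bw_congr {R : List ℕ} {B B' : ℕ → List ℕ} (h : ∀ r ∈ R, B r = B' r) :
    Bw R B = Bw R B' := by
  induction R with
  | nil => rfl
  | cons a R ih =>
    rw [bw_cons, bw_cons, ih (fun r hr => h r (List.mem_cons_of_mem _ hr)), h a (by simp)]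

theorem EW_split (s1 s2 : ℕ) (P1 P2 P3 Q L : List ℕ) :
    EW 9 s1 s2 P1 P2 P3 Q L = pe s1 s2 P1 P2 P3 ++ (L ++ qe s1 s2 Q) := by
  have e1 : ∀ X : List ℕ, Bw (X.map (fun e => e + 1))
      (fun r => if r = 0 then L else [kx 9 s1 s2 (r - 1)])
      = Bw (X.map (fun e => e + 1)) (fun r => [kx 9 s1 s2 (r - 1)]) := by
    intro X
    apply bw_congr
    intro r hr
    obtain ⟨i, _, rfl⟩ := List.mem_map.1 hr
    show (if i + 1 = 0 then L else [kx 9 s1 s2 (i + 1 - 1)]) = [kx 9 s1 s2 (i + 1 - 1)]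
    rw [if_neg (by omega)]
  unfold EW Wk lab pe qe
  rw [bw_append, bw_cons, if_pos rfl, e1, e1]

theorem pe_nine : 2 ≤ (pe s1 s2 P1 P2 P3).count 9 := by
  have e1 : kx 9 s1 s2 s1 = 9 := by unfold kx; rw [if_pos (Or.inl rfl)]
  have e2 : kx 9 s1 s2 s2 = 9 := by unfold kx; rw [if_pos (Or.inr rfl)]
  unfold pe
  simp only [List.map_append, List.map_cons, bw_append, bw_cons, List.count_append,
    Nat.add_sub_cancel, e1, e2]
  have e3 : [9].count 9 = 1 := rfl
  rw [e3]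
  have e4 : ∀ (j : ℕ) (l : List ℕ), ((3 * (j + 1) + 2) :: l).count 9 = l.count 9 := by
    intro j l
    rw [List.count_cons_of_ne (by omega)]
  rw [e4, List.count_append, List.count_append, e3]
  omega

theorem Cfg.mult_E0 (H : Cfg s1 s2 r1 r2 h z P1 P2 P3 Q α) :
    Mult α (pe s1 s2 P1 P2 P3 ++ 0 :: (α ++ 9 :: 0 :: qe s1 s2 Q)) := by
  intro a ha
  have h1 := H.can.sf a ha
  have e1 : (pe s1 s2 P1 P2 P3 ++ 0 :: (α ++ 9 :: 0 :: qe s1 s2 Q)).count a
      = (pe s1 s2 P1 P2 P3).count a + α.count a + (qe s1 s2 Q).count a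
        + (if 9 = a then 1 else 0) + (if 0 = a then 2 else 0) := by
    simp only [List.count_append, List.count_cons, beq_iff_eq]
    split_ifs <;> omega
  rw [e1]
  by_cases h2 : a % 3 = 1
  · obtain ⟨i, hi, rfl⟩ := H.can.ps a ha h2
    have h3 := H.can.pl i hi
    obtain ⟨m1, m2, m3, m4⟩ := H.ne (mem_pS.2 (Or.inl hi))
    have ek : kx 9 s1 s2 i = 3 * i + 1 := by unfold kx; rw [if_neg (by omega)]
    have h4 : ∀ X : List ℕ, i ∈ X → 3 * i + 1 ∈ Bw (X.map (fun e => e + 1))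
        (fun r => [kx 9 s1 s2 (r - 1)]) := by
      intro X hX
      unfold Bw
      rw [List.mem_flatMap]
      refine ⟨i + 1, List.mem_map.2 ⟨i, hX, rfl⟩, ?_⟩
      show 3 * i + 1 ∈ [kx 9 s1 s2 (i + 1 - 1)] ++ [3 * (i + 1) + 2]
      rw [Nat.add_sub_cancel, ek]
      simp
    rw [List.mem_append] at hi
    rcases hi with hi | hi
    · have h5 : 0 < (pe s1 s2 P1 P2 P3).count (3 * i + 1) := by
        rw [List.count_pos_iff]
        apply h4
        simp only [List.mem_append, List.mem_cons] at hi ⊢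
        tauto
      omega
    · have h5 : 0 < (qe s1 s2 Q).count (3 * i + 1) := by
        rw [List.count_pos_iff]
        exact List.mem_cons_of_mem _ (h4 Q hi)
      omega
  · have h3 := (H.can.lc a ha (by omega)).1
    omega

/-- **ESB** -/
theorem esb (sha : ShaStmt) (xvb : XvbStmt) (efa : EfaStmt) (hpr : HprStmt) (rga : RgaStmt)
    (rgd : RgdStmt) (erd : ErdStmt) : EsbStmt := by
  intro β n s1 s2 r1 r2 h z P1 P2 P3 Q α E hnd u hu
  have H : Cfg s1 s2 r1 r2 h z P1 P2 P3 Q α := ⟨hnd, E.can⟩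
  rw [EV_filter] at hu
  have F0 := bf_B0 H
  have hRn : (lab (pL s1 s2 r1 r2 h P1 P2 P3) (Q ++ [z])).Nodup := lab_nodup hnd
  have h0R : 0 ∈ lab (pL s1 s2 r1 r2 h P1 P2 P3) (Q ++ [z]) := mem_lab.2 (Or.inl rfl)
  obtain ⟨B, e, hB, he, rfl, ho, h2, hl⟩ := sha β E.hc.i2 E.hc.i3 E.hc.na _ _ u hRn
    (fun r _ => F0.sf r) hu
  have hpR : ∀ i ∈ pS h z P1 P2 P3 Q, i + 1 ∈ lab (pL s1 s2 r1 r2 h P1 P2 P3) (Q ++ [z]) :=
    fun i hi => mem_lab.2 (Or.inr ⟨i, pS_sub hi, rfl⟩)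
  have hsum : ∀ i ∈ pS h z P1 P2 P3 Q, (∀ q ∈ lab (pL s1 s2 r1 r2 h P1 P2 P3) (Q ++ [z]),
      (B q).count (3 * i + 1) = if q = 0 ∨ q = i + 1 then 1 else 0) ∧
      e.count (3 * i + 1) = 0 := fun i hi =>
    h2 (3 * i + 1) 0 (i + 1) (by omega) h0R (hpR i hi) (by omega) (F0.cz i hi)
  have hloc : ∀ a, Loc α a → a % 3 ≠ 2 := by
    intro a ha
    rcases ha with h1 | h1 | h1 | h1
    · omega
    · omega
    · omega
    · have := h1.2
      omega
  have hlocal : ∀ a, Loc α a → (∀ q ∈ lab (pL s1 s2 r1 r2 h P1 P2 P3) (Q ++ [z]),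
      (B q).count a = if q = 0 then 2 else 0) ∧ e.count a = 0 := fun a ha =>
    hl a 0 (hloc a ha) h0R (F0.cl a ha)
  -- the letter `9`
  have hR : lab (pL s1 s2 r1 r2 h P1 P2 P3) (Q ++ [z]) =
      P1.map (fun e => e + 1) ++ (s1 + 1) :: ((r1 :: P2).map (fun e => e + 1) ++
        (s2 + 1) :: ((r2 :: (P3 ++ [h])).map (fun e => e + 1) ++
          0 :: (Q ++ [z]).map (fun e => e + 1))) := by
    simp [lab, pL]
  have hx := xvb β E.vx (P1.map (fun e => e + 1)) ((r1 :: P2).map (fun e => e + 1))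
    ((r2 :: (P3 ++ [h])).map (fun e => e + 1)) ((Q ++ [z]).map (fun e => e + 1)) (s1 + 1) (s2 + 1)
    0 (B0 s1 s2 r1 r2 h z α) B e 9 (hR ▸ hRn) (fun r _ => F0.sf r) (fun r _ => hB r) he
    (by norm_num) (fun q _ => nine_B0 H q) (by rw [← hR]; exact hu)
  obtain ⟨x1, x2, x3⟩ := hx
  have F : BF s1 s2 r1 r2 h z P1 P2 P3 Q α B :=
    { sf := hB
      cz := fun i hi => (hsum i hi).1
      cl := fun a ha => (hlocal a ha).1
      co := fun c hc1 hc2 hc3 => (ho c (F0.co c hc1 hc2 hc3)).1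
      c9 := x1
      n9 := x2 }
  have he0 : e = [] := by
    rcases List.eq_nil_or_concat' e with h3 | ⟨e', a, h3⟩
    · exact h3
    · exfalso
      have ha : a ∈ e := by rw [h3]; simp
      have hp : 0 < e.count a := List.count_pos_iff.2 ha
      by_cases h9 : a = 9
      · subst h9
        omega
      · by_cases h4 : ∀ i ∈ pS h z P1 P2 P3 Q, a ≠ 3 * i + 1
        · by_cases h5 : Loc α a
          · rw [(hlocal a h5).2] at hp
            omega
          · exact (ho a (F0.co a h9 h4 h5)).2 ha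
        · push Not at h4
          obtain ⟨i, hi, rfl⟩ := h4
          rw [(hsum i hi).2] at hp
          omega
  subst he0
  rw [List.append_nil] at hu ⊢
  -- the order of the letters
  have hsfn : SFr [] := fun c hc => absurd hc List.not_mem_nil
  have hrga : ∀ a, Loc α a → ∀ i ∈ pL s1 s2 r1 r2 h P1 P2 P3, i ∈ pS h z P1 P2 P3 Q →
      (LA a (3 * i + 1) (B0 s1 s2 r1 r2 h z α 0) ↔ LA a (3 * i + 1) (B 0)) := by
    intro a ha i hi hi'
    have hne : a ≠ 3 * i + 1 := by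
      rintro rfl
      have h3 := F0.cl _ ha 0 h0R
      rw [F0.cz i hi' 0 h0R, if_pos (Or.inl rfl), if_pos rfl] at h3
      omega
    refine rga β E.hc.s2 E.hc.na _ (B0 s1 s2 r1 r2 h z α) B [] [] hRn (fun r _ => F0.sf r)
      (fun r _ => hB r) hsfn hsfn (by rw [List.append_nil, List.append_nil]; exact hu) a
      (3 * i + 1) 0 (i + 1) hne (hloc a ha) (by omega) (bfr_left hi) (F0.cl a ha) (F.cl a ha)
      (fun q hq => ?_) (fun q hq => ?_) rfl rfl rfl rfl
    · rw [F0.cz i hi' q hq]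
      by_cases h3 : q = 0 ∨ q = i + 1
      · rw [if_pos h3, if_pos h3.symm]
      · rw [if_neg h3, if_neg (fun h4 => h3 h4.symm)]
    · rw [F.cz i hi' q hq]
      by_cases h3 : q = 0 ∨ q = i + 1
      · rw [if_pos h3, if_pos h3.symm]
      · rw [if_neg h3, if_neg (fun h4 => h3 h4.symm)]
  have hrgd : ∀ a, Loc α a → ∀ i ∈ Q ++ [z], i ∈ pS h z P1 P2 P3 Q →
      (FA a (3 * i + 1) (B0 s1 s2 r1 r2 h z α 0) ↔ FA a (3 * i + 1) (B 0)) := by
    intro a ha i hi hi'
    have hne : a ≠ 3 * i + 1 := by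
      rintro rfl
      have h3 := F0.cl _ ha 0 h0R
      rw [F0.cz i hi' 0 h0R, if_pos (Or.inl rfl), if_pos rfl] at h3
      omega
    refine rgd β E.hc.s2 E.hc.nad _ (B0 s1 s2 r1 r2 h z α) B [] [] hRn (fun r _ => F0.sf r)
      (fun r _ => hB r) hsfn hsfn (by rw [List.append_nil, List.append_nil]; exact hu) a
      (3 * i + 1) 0 (i + 1) hne (hloc a ha) (by omega) (bfr_right hi) (F0.cl a ha) (F.cl a ha)
      (fun q hq => ?_) (fun q hq => ?_) rfl rfl rfl rfl
    · rw [F0.cz i hi' q hq]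
      by_cases h3 : q = 0 ∨ q = i + 1
      · rw [if_pos h3, if_pos h3.symm]
      · rw [if_neg h3, if_neg (fun h4 => h3 h4.symm)]
    · rw [F.cz i hi' q hq]
      by_cases h3 : q = 0 ∨ q = i + 1
      · rw [if_pos h3, if_pos h3.symm]
      · rw [if_neg h3, if_neg (fun h4 => h3 h4.symm)]
  obtain ⟨o1, o2, o3, o4, o5, o6, o7⟩ := H.ord0
  have l0 : Loc α 0 := Or.inl rfl
  have l3 : Loc α 3 := Or.inr (Or.inl rfl)
  have l6 : Loc α 6 := Or.inr (Or.inr (Or.inl rfl))
  have hhL : h ∈ pL s1 s2 r1 r2 h P1 P2 P3 := by unfold pL; simp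
  have hhS : h ∈ pS h z P1 P2 P3 Q := mem_pS.2 (Or.inr (Or.inl rfl))
  have hzS : z ∈ pS h z P1 P2 P3 Q := mem_pS.2 (Or.inr (Or.inr rfl))
  -- `z_h` is before `9`
  have hef : ¬ ∀ n, EF β n := by
    intro hall
    apply E.nr
    have h3 := hall α.length (pe s1 s2 P1 P2 P3) α (qe s1 s2 Q) 9 0 le_rfl
    rw [EW_split, EW_split]
    have e1 : pe s1 s2 P1 P2 P3 ++ (0 :: (α ++ [9, 0]) ++ qe s1 s2 Q)
        = pe s1 s2 P1 P2 P3 ++ 0 :: (α ++ 9 :: 0 :: qe s1 s2 Q) := by simp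
    have e2 : pe s1 s2 P1 P2 P3 ++ (0 :: (α ++ [0, 9]) ++ qe s1 s2 Q)
        = pe s1 s2 P1 P2 P3 ++ 0 :: (α ++ 0 :: 9 :: qe s1 s2 Q) := by simp
    rw [e1, e2]
    exact h3 H.mult_E0 pe_nine
  have hor : ∀ (B' : ℕ → List ℕ), BF s1 s2 r1 r2 h z P1 P2 P3 Q α B' →
      ∀ q ∈ lab (pL s1 s2 r1 r2 h P1 P2 P3) (Q ++ [z]),
        (B' q).count (3 * h + 1) = if q = h + 1 ∨ q = 0 then 1 else 0 := by
    intro B' F' q hq
    rw [F'.cz h hhS q hq]
    by_cases h3 : q = 0 ∨ q = h + 1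
    · rw [if_pos h3, if_pos h3.symm]
    · rw [if_neg h3, if_neg (fun h4 => h3 h4.symm)]
  have h9 : ¬ Bfr (B 0) 9 (3 * h + 1) := by
    have hd := hpr β E.vx hef (P1.map (fun e => e + 1)) ((r1 :: P2).map (fun e => e + 1))
      ((r2 :: (P3 ++ [h])).map (fun e => e + 1)) ((Q ++ [z]).map (fun e => e + 1)) (s1 + 1)
      (s2 + 1) 0 (h + 1) (B0 s1 s2 r1 r2 h z α) B [] 9 (3 * h + 1) (hR ▸ hRn) (by simp)
      (fun r _ => F0.sf r) (fun r _ => hB r) hsfn (by norm_num) (by omega) (by omega)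
      (fun q _ => nine_B0 H q) (by rw [← hR]; exact hor _ F0) (by rw [← hR]; exact hor _ F) rfl
      (by rw [← hR, List.append_nil]; exact hu)
    exact fun hh => o4 (hd.2 hh)
  -- `9` is before the last `0`
  have h90 : LA 9 0 (B 0) := by
    have h3 := hu.sub (f1 s1 s2 r1 r2 h z)
    rw [H.img0, F.imgB H] at h3
    have h4 := efa β n 9 0 s1 s2 P1 P2 P3 Q α E (Bt s1 s2 r1 r2 h z B) []
      (fun r _ => Bt_sfr hB r) hsfn (by rw [List.append_nil]; exact h3)
    unfold Bt at h4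
    rw [if_neg (by omega), if_neg (by omega)] at h4
    refine la_filter ?_ h4
    rw [decide_eq_true_iff]
    unfold er
    omega
  -- the letters of `α`
  have hα : RR β (Wm (P1 ++ (P2 ++ P3)) Q α)
      (Wm (P1 ++ (P2 ++ P3)) Q ((B 0).filter (fun a => decide (a ∈ α)))) := by
    have h3 := hu.filter (T2 P1 P2 P3 Q α)
    rw [F0.img2 H, F.img2 H, H.B0_alpha] at h3
    exact h3
  obtain ⟨⟨e', he', l, hl1⟩, f', hf', l', hl2⟩ :=
    erd β n 9 0 s1 s2 P1 P2 P3 Q α E _ (F.perm H) hα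
  have heT : e' ∈ (P1 ++ (P2 ++ P3)) ++ Q := List.mem_append_right _ he'
  have hfT : f' ∈ (P1 ++ (P2 ++ P3)) ++ Q := List.mem_append_left _ hf'
  have hfL : f' ∈ pL s1 s2 r1 r2 h P1 P2 P3 := by
    unfold pL
    simp only [List.mem_append, List.mem_cons] at hf' ⊢
    tauto
  have cc : ∀ i ∈ pS h z P1 P2 P3 Q, (B 0).count (3 * i + 1) = 1 := by
    intro i hi
    rw [F.cz i hi 0 h0R, if_pos (Or.inl rfl)]
  have c0 : (B 0).count 0 = 2 := by
    rw [F.cl 0 l0 0 h0R, if_pos rfl]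
  have hall : ∀ a ∈ B 0, a = 0 ∨ a = 3 ∨ a = 6 ∨ a = 9 ∨ a = 3 * h + 1 ∨ a = 3 * z + 1 ∨ a ∈ α := by
    intro a ha
    rcases F.mem_main ha with h3 | ⟨i, hi, h3⟩ | h3
    · tauto
    · rcases mem_pS.1 hi with h4 | h4 | h4
      · have h5 := H.mem_alpha.2 h4
        rw [← h3] at h5
        tauto
      · subst h4
        tauto
      · subst h4
        tauto
    · unfold Loc at h3
      tauto
  obtain ⟨⟨A, hA⟩, hbt⟩ := order_core (K := B 0) (α := α) F.c9 c0 (cc h hhS) (cc z hzS) hall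
    (H.alpha_small (by norm_num) (by norm_num))
    (fun hh => H.not_T (Or.inl rfl) (H.mem_alpha.1 hh)) (by omega) (by omega)
    ((hrga 6 l6 h hhL hhS).1 o1) ((hrga 3 l3 h hhL hhS).1 o2)
    (fun hh => o3 ((hrga 0 l0 h hhL hhS).2 hh)) h9 h90 hl1 hl2
    (fun hh => o6 f' hfT ((hrga 3 l3 f' hfL (mem_pS.2 (Or.inl hfT))).2 hh))
    ((hrgd 0 l0 e' (List.mem_append_left _ he') (mem_pS.2 (Or.inl heT))).1 (o7 e' heT))
    (fun hh => o5 ((hrgd 0 l0 z (by simp) hzS).2 hh))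
  refine ⟨B, hB, rfl, ?_, ?_, x1, ?_, ?_, ⟨A, hA⟩, ?_⟩
  · intro i hi
    have hi1 : i ∈ pS h z P1 P2 P3 Q := hi
    refine ⟨cc i hi1, ?_, ?_⟩
    · rw [F.cz i hi1 _ (hpR i hi1), if_pos (Or.inr rfl)]
    · exact count_two (by omega) (by omega) hRn h0R (hpR i hi1) B (F.cz i hi1)
  · intro r hr hr0 a ha
    rcases mem_lab.1 hr with h3 | ⟨j, hj, rfl⟩
    · exact absurd h3 hr0
    · rw [Nat.add_sub_cancel]
      rcases F.mem_blk hj ha with h3 | h3
      · exact Or.inl h3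
      · exact Or.inr h3.2
  · intro i hi
    have hi1 : i ∈ pS h z P1 P2 P3 Q := by
      unfold pS
      simp only [List.mem_append, List.mem_cons] at hi ⊢
      tauto
    have hn9 : (B (i + 1)).count 9 = 0 := F.n9 (i + 1) (by
      rw [List.mem_append]
      exact Or.inr (List.mem_map.2 ⟨i, hi, rfl⟩))
    have h3 : (B (i + 1)).filter (fun _ => true) = [3 * i + 1] := by
      refine filter_one rfl ?_ ?_
      · intro a ha _
        rcases F.mem_blk (List.mem_append_right _ hi) ha with h4 | h4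
        · rw [h4] at ha
          exact absurd ha (List.count_eq_zero.1 hn9)
        · exact h4.2
      · rw [F.cz i hi1 _ (hpR i hi1), if_pos (Or.inr rfl)]
    rw [List.filter_eq_self.2 (fun _ _ => rfl)] at h3
    exact h3
  · intro a ha ha9
    rcases F.mem_main ha with h3 | ⟨i, hi, h3⟩ | h3
    · exact absurd h3 ha9
    · exact Or.inl ⟨i, hi, h3⟩
    · right
      refine ⟨?_, count_loc (hloc a h3) hRn h0R B (F.cl a h3)⟩
      rw [F.cl a h3 0 h0R, if_pos rfl]
  · intro i hi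
    have hi2 : i ∈ pS h z P1 P2 P3 Q ∧ (3 * i + 1 ∈ α ∨ 3 * i + 1 = 3 * h + 1) := by
      simp only [List.mem_append, List.mem_cons, List.not_mem_nil, or_false] at hi
      by_cases h4 : i = h
      · subst h4
        exact ⟨hhS, Or.inr rfl⟩
      · have h5 : i ∈ (P1 ++ (P2 ++ P3)) ++ Q := by
          simp only [List.mem_append]
          tauto
        exact ⟨mem_pS.2 (Or.inl h5), Or.inl (H.mem_alpha.2 h5)⟩
    refine hbt (3 * i + 1) ?_ hi2.2
    rw [← List.count_pos_iff, cc i hi2.1]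
    exact one_pos

end Pool.Agent.MVD.H71
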