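import Pool.Agent.MVD.StmtsLoc

/-!
# Squad MVD, row ESB, part 1: words
-/

set_option autoImplicit false

namespace Pool.Agent.MVD.H71

open Pool.Agent.Helper14_MV Pool.Agent.Helper2_MV Pool.Agent.MVD

/-! ### a letter with one occurrence -/

theorem split_uniq {c : ℕ} : ∀ {A A' C C' : List ℕ}, c ∉ A → c ∉ A' →
    A ++ c :: C = A' ++ c :: C' → A = A' ∧ C = C' := by
  intro A
  induction A with
  | nil =>
    intro A' C C' _ h2 h3
    cases A' with
    | nil => simpa using h3
    | cons d A' =>
      rw [List.nil_append, List.cons_append, List.cons.injEq] at h3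
      exact absurd (by rw [h3.1]; simp) h2
  | cons d A ih =>
    intro A' C C' h1 h2 h3
    cases A' with
    | nil =>
      rw [List.nil_append, List.cons_append, List.cons.injEq] at h3
      exact absurd (by rw [h3.1]; simp) h1
    | cons d' A' =>
      rw [List.cons_append, List.cons_append, List.cons.injEq] at h3
      obtain ⟨h4, h5⟩ := ih (fun h => h1 (List.mem_cons_of_mem _ h))
        (fun h => h2 (List.mem_cons_of_mem _ h)) h3.2
      exact ⟨by rw [h3.1, h4], h5⟩

theorem one_split {c : ℕ} {K : List ℕ} (h : K.count c = 1) :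
    ∃ A C, K = A ++ c :: C ∧ c ∉ A ∧ c ∉ C := by
  obtain ⟨A, C, rfl⟩ := List.append_of_mem (List.count_pos_iff.1 (by omega : 0 < K.count c))
  rw [List.count_append, List.count_cons_self] at h
  exact ⟨A, C, rfl, List.count_eq_zero.1 (by omega), List.count_eq_zero.1 (by omega)⟩

/-- `LA` for a letter `b` with one occurrence -/
theorem la_one {a b : ℕ} {A C : List ℕ} (hA : b ∉ A) (hC : b ∉ C)
    (h : LA a b (A ++ b :: C)) : a ∉ C := by
  obtain ⟨A', C', h1, h2⟩ := h
  have h3 : b ∉ A' := by
    intro h4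
    have h5 := congrArg (List.count b) h1
    rw [List.count_append, List.count_append, List.count_cons_self, List.count_cons_self,
      List.count_eq_zero.2 hA, List.count_eq_zero.2 hC] at h5
    have h6 := List.count_pos_iff.2 h4
    omega
  obtain ⟨-, h4⟩ := split_uniq hA h3 h1
  rw [h4]
  exact h2

theorem not_la {a b : ℕ} {A C : List ℕ} (h : ¬ LA a b (A ++ b :: C)) : a ∈ C := by
  by_contra h1
  exact h ⟨A, C, rfl, h1⟩

theorem perm_two {a b : ℕ} {l : List ℕ} (hab : a ≠ b) (h1 : l.count a = 1) (h2 : l.count b = 1)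
    (h3 : ∀ c ∈ l, c = a ∨ c = b) : l = [a, b] ∨ l = [b, a] := by
  obtain ⟨A, C, rfl, hA, hC⟩ := one_split h1
  have hA' : ∀ c ∈ A, c = b := fun c hc => by
    rcases h3 c (by simp [hc]) with h | h
    · exact absurd (h ▸ hc) hA
    · exact h
  have hC' : ∀ c ∈ C, c = b := fun c hc => by
    rcases h3 c (by simp [hc]) with h | h
    · exact absurd (h ▸ hc) hC
    · exact h
  obtain ⟨n, rfl⟩ : ∃ n, A = List.replicate n b := ⟨_, List.eq_replicate_of_mem hA'⟩
  obtain ⟨m, rfl⟩ : ∃ m, C = List.replicate m b := ⟨_, List.eq_replicate_of_mem hC'⟩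
  rw [List.count_append, List.count_cons_of_ne hab, List.count_replicate_self,
    List.count_replicate_self] at h2
  have h4 : (n = 0 ∧ m = 1) ∨ (n = 1 ∧ m = 0) := by omega
  rcases h4 with ⟨rfl, rfl⟩ | ⟨rfl, rfl⟩
  · left; rfl
  · right; rfl

/-- the order of the letters in the main block -/
theorem order_core {K α l l' : List ℕ} {zh zz ze zf : ℕ} (c9 : K.count 9 = 1)
    (c0 : K.count 0 = 2) (ch : K.count zh = 1) (cz : K.count zz = 1)
    (hall : ∀ a ∈ K, a = 0 ∨ a = 3 ∨ a = 6 ∨ a = 9 ∨ a = zh ∨ a = zz ∨ a ∈ α)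
    (h0α : 0 ∉ α) (hhα : zh ∉ α) (hh0 : zh ≠ 0) (hh9 : zh ≠ 9)
    (h6 : LA 6 zh K) (h3 : LA 3 zh K) (h0 : ¬ LA 0 zh K) (h9 : ¬ Bfr K 9 zh) (h90 : LA 9 0 K)
    (he : K.filter (fun a => decide (a ∈ α)) = ze :: l)
    (hf : K.filter (fun a => decide (a ∈ α)) = l' ++ [zf])
    (hf3 : ¬ LA 3 zf K) (he0 : FA 0 ze K) (hz0 : ¬ FA 0 zz K) :
    (∃ A, K = A ++ [zh, 9, 0]) ∧ ∀ a ∈ K, (a ∈ α ∨ a = zh) → Btw 0 a K := by
  obtain ⟨A, C, hK, hA, hC⟩ := one_split ch
  have h6C : 6 ∉ C := la_one hA hC (hK ▸ h6)
  have h3C : 3 ∉ C := la_one hA hC (hK ▸ h3)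
  have h0C : 0 ∈ C := not_la (A := A) (hK ▸ h0)
  have h9A : 9 ∉ A := by
    intro h
    obtain ⟨A1, A2, rfl⟩ := List.append_of_mem h
    exact h9 ⟨A1, A2, C, by rw [hK]; simp⟩
  -- the letters of `α`
  have hzfα : zf ∈ α := by
    have h : zf ∈ K.filter (fun a => decide (a ∈ α)) := by rw [hf]; simp
    simpa using (List.mem_filter.1 h).2
  have hKf : A.filter (fun a => decide (a ∈ α)) ++ C.filter (fun a => decide (a ∈ α))
      = l' ++ [zf] := by
    rw [← hf, hK, List.filter_append, List.filter_cons_of_neg (by simpa using hhα)]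
  have hzfC : zf ∉ C := by
    intro h
    obtain ⟨C1, C2, rfl⟩ := List.append_of_mem h
    refine hf3 ⟨A ++ zh :: C1, C2, by rw [hK]; simp, fun h' => h3C (by simp [h'])⟩
  have hCα : ∀ a ∈ C, a ∉ α := by
    intro a ha haα
    have h1 : C.filter (fun a => decide (a ∈ α)) ≠ [] := by
      intro h2
      rw [List.filter_eq_nil_iff] at h2
      exact h2 a ha (by simpa using haα)
    obtain ⟨X, y, hX⟩ := List.eq_nil_or_concat'
      (C.filter (fun a => decide (a ∈ α))) |>.resolve_left h1
    rw [hX, ← List.append_assoc] at hKf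
    have h2 := List.append_inj_right' hKf rfl
    rw [List.cons.injEq] at h2
    have h3 : y ∈ C.filter (fun a => decide (a ∈ α)) := by rw [hX]; simp
    exact hzfC (h2.1 ▸ List.mem_of_mem_filter h3)
  have hzfA : zf ∈ A := by
    have h : zf ∈ K.filter (fun a => decide (a ∈ α)) := by rw [hf]; simp
    have h1 := List.mem_of_mem_filter h
    rw [hK, List.mem_append, List.mem_cons] at h1
    rcases h1 with h1 | h1 | h1
    · exact h1
    · exact absurd (h1 ▸ hzfα) hhα
    · exact absurd h1 hzfC
  -- the first `0`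
  obtain ⟨D, E, hD, hDe⟩ := he0
  have hDα : ∀ a ∈ D, a ∉ α := by
    intro a ha haα
    have h1 : D.filter (fun a => decide (a ∈ α)) ≠ [] := by
      intro h2
      rw [List.filter_eq_nil_iff] at h2
      exact h2 a ha (by simpa using haα)
    have h2 : D.filter (fun a => decide (a ∈ α)) ++ (0 :: E).filter (fun a => decide (a ∈ α))
        = ze :: l := by
      rw [← he, hD, List.filter_append]
    cases h3 : D.filter (fun a => decide (a ∈ α)) with
    | nil => exact h1 h3
    | cons y Y =>
      rw [h3, List.cons_append, List.cons.injEq] at h2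
      have h4 : y ∈ D.filter (fun a => decide (a ∈ α)) := by rw [h3]; simp
      exact hDe (h2.1 ▸ List.mem_of_mem_filter h4)
  have hsplit : ∃ E', A = D ++ 0 :: E' := by
    have h1 : D ++ 0 :: E = A ++ zh :: C := by rw [← hD, hK]
    rcases List.append_eq_append_iff.1 h1 with ⟨a', h2, h3⟩ | ⟨c', h2, h3⟩
    · cases a' with
      | nil =>
        rw [List.nil_append, List.cons.injEq] at h3
        exact absurd h3.1.symm hh0
      | cons y Y =>
        rw [List.cons_append, List.cons.injEq] at h3
        exact ⟨Y, by rw [h2, h3.1]⟩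
    · exact absurd hzfα (hDα zf (by rw [h2]; simp [hzfA]))
  obtain ⟨E', hE'⟩ := hsplit
  have hzzD : zz ∈ D := by
    by_contra h
    exact hz0 ⟨D, E, hD, h⟩
  have hzzC : zz ∉ C := by
    intro h
    rw [hK, hE', List.count_append, List.count_append, List.count_cons] at cz
    have h1 := List.count_pos_iff.2 hzzD
    have h2 : 0 < (zh :: C).count zz := List.count_pos_iff.2 (List.mem_cons_of_mem _ h)
    omega
  have c0C : C.count 0 = 1 := by
    have h1 := List.count_pos_iff.2 h0C
    rw [hK, hE', List.count_append, List.count_append, List.count_cons_self,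
      List.count_cons_of_ne hh0] at c0
    omega
  have c9C : C.count 9 = 1 := by
    rw [hK, List.count_append, List.count_cons_of_ne hh9, List.count_eq_zero.2 h9A] at c9
    omega
  have hCl : ∀ c ∈ C, c = 9 ∨ c = 0 := by
    intro a ha
    rcases hall a (by rw [hK]; simp [ha]) with h | h | h | h | h | h | h
    · exact Or.inr h
    · exact absurd (h ▸ ha) h3C
    · exact absurd (h ▸ ha) h6C
    · exact Or.inl h
    · exact absurd (h ▸ ha) hC
    · exact absurd (h ▸ ha) hzzC
    · exact absurd h (hCα a ha)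
  have hC90 : C = [9, 0] := by
    rcases perm_two (by norm_num) c9C c0C hCl with h | h
    · exact h
    · exfalso
      obtain ⟨X, Y, h2, h3⟩ := h90
      have h4 : X ++ 0 :: Y = (A ++ [zh, 0]) ++ [9] := by
        rw [← h2, hK, h]
        simp
      rcases List.eq_nil_or_concat' Y with h5 | ⟨Y', y, h5⟩
      · subst h5
        have h6 := List.append_inj_right' h4 rfl
        rw [List.cons.injEq] at h6
        exact absurd h6.1 (by norm_num)
      · subst h5
        have h5 : (X ++ 0 :: Y') ++ [y] = (A ++ [zh, 0]) ++ [9] := by rw [← h4]; simp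
        have h6 := List.append_inj_right' h5 rfl
        rw [List.cons.injEq] at h6
        exact h3 (by rw [h6.1]; simp)
  subst hC90
  refine ⟨⟨A, hK⟩, fun a ha h => ?_⟩
  have hK2 : K = D ++ 0 :: ((E' ++ [zh, 9]) ++ 0 :: []) := by
    rw [hK, hE']
    simp
  refine ⟨D, E' ++ [zh, 9], [], hK2, ?_⟩
  rcases h with h | h
  · rw [hK2] at ha
    simp only [List.mem_append, List.mem_cons, List.not_mem_nil, or_false] at ha
    rcases ha with ha | ha | ha | ha
    · exact absurd h (hDα a ha)
    · exact absurd (ha ▸ h) h0α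
    · simp only [List.mem_append, List.mem_cons, List.not_mem_nil, or_false]
      exact ha
    · exact absurd (ha ▸ h) h0α
  · rw [h]
    simp

end Pool.Agent.MVD.H71
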