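import Pool.Agent.Helper71_MVD.ESBa

/-!
# Squad MVD, row ESB, part 2: blocks and counts
-/

set_option autoImplicit false

namespace Pool.Agent.MVD.H71

open Pool.Agent.Helper14_MV Pool.Agent.Helper2_MV Pool.Agent.MVD

/-! ### block words -/

theorem bw_nil (B : ℕ → List ℕ) : Bw [] B = [] := rfl

theorem bw_cons (r : ℕ) (R : List ℕ) (B : ℕ → List ℕ) :
    Bw (r :: R) B = B r ++ (3 * r + 2) :: Bw R B := by
  simp [Bw]

theorem bw_append (R1 R2 : List ℕ) (B : ℕ → List ℕ) : Bw (R1 ++ R2) B = Bw R1 B ++ Bw R2 B := by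
  unfold Bw
  rw [List.flatMap_append]

theorem bw_erase (p : ℕ → Bool) (B B'' : ℕ → List ℕ) : ∀ (R : List ℕ),
    (∀ r ∈ R, p (3 * r + 2) = true → (B r).filter p = B'' r) →
    (∀ r ∈ R, p (3 * r + 2) = false → (B r).filter p = []) →
      (Bw R B).filter p = Bw (R.filter (fun r => p (3 * r + 2))) B'' := by
  intro R
  induction R with
  | nil => intro _ _; rfl
  | cons a R ih =>
    intro h1 h2
    have h3 := ih (fun r hr => h1 r (List.mem_cons_of_mem _ hr))
      (fun r hr => h2 r (List.mem_cons_of_mem _ hr))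
    rw [bw_cons, List.filter_append]
    cases hp : p (3 * a + 2) with
    | true =>
      have e1 : (a :: R).filter (fun r => p (3 * r + 2)) =
          a :: R.filter (fun r => p (3 * r + 2)) := List.filter_cons_of_pos hp
      rw [List.filter_cons_of_pos hp, e1, bw_cons, h3, h1 a List.mem_cons_self hp]
    | false =>
      have hp' : ¬ p (3 * a + 2) = true := by simp [hp]
      have e1 : (a :: R).filter (fun r => p (3 * r + 2)) =
          R.filter (fun r => p (3 * r + 2)) := List.filter_cons_of_neg hp'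
      rw [List.filter_cons_of_neg hp', e1, h3, h2 a List.mem_cons_self hp, List.nil_append]

theorem bw_filter_all (p : ℕ → Bool) (B : ℕ → List ℕ) (R : List ℕ)
    (hp : ∀ r ∈ R, p (3 * r + 2) = true) :
    (Bw R B).filter p = Bw R (fun r => (B r).filter p) := by
  rw [bw_erase p B (fun r => (B r).filter p) R (fun _ _ _ => rfl)
    (fun r hr h => by rw [hp r hr] at h; exact absurd h (by decide)),
    List.filter_eq_self.2 hp]

theorem bw_sub (φ : ℕ → List ℕ) (B B'' : ℕ → List ℕ) : ∀ (R : List ℕ),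
    (∀ r ∈ R, φ (3 * r + 2) = [3 * r + 2]) → (∀ r ∈ R, (B r).flatMap φ = B'' r) →
      (Bw R B).flatMap φ = Bw R B'' := by
  intro R
  induction R with
  | nil => intro _ _; rfl
  | cons a R ih =>
    intro h1 h2
    rw [bw_cons, bw_cons, List.flatMap_append, List.flatMap_cons, h1 a List.mem_cons_self,
      h2 a List.mem_cons_self, ih (fun r hr => h1 r (List.mem_cons_of_mem _ hr))
      (fun r hr => h2 r (List.mem_cons_of_mem _ hr))]
    rfl

theorem count_bw {c : ℕ} (hc : c % 3 ≠ 2) (B : ℕ → List ℕ) : ∀ (R : List ℕ),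
    (Bw R B).count c = (R.map fun r => (B r).count c).sum := by
  intro R
  induction R with
  | nil => rfl
  | cons a R ih =>
    rw [bw_cons, List.count_append, List.count_cons_of_ne (by omega), ih, List.map_cons,
      List.sum_cons]

theorem sum_ite_one {s : ℕ} : ∀ R : List ℕ,
    (R.map fun q => if q = s then 1 else 0).sum = R.count s := by
  intro R
  induction R with
  | nil => rfl
  | cons a R ih =>
    rw [List.map_cons, List.sum_cons, ih]
    by_cases h2 : a = s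
    · subst h2
      rw [if_pos rfl, List.count_cons_self]
      omega
    · rw [if_neg h2, List.count_cons_of_ne h2]
      omega

/-- a letter with two occurrences, in two blocks -/
theorem count_two {c r s : ℕ} (hc : c % 3 ≠ 2) (hrs : r ≠ s) {R : List ℕ} (hR : R.Nodup)
    (hr : r ∈ R) (hs : s ∈ R) (B : ℕ → List ℕ)
    (h : ∀ q ∈ R, (B q).count c = if q = r ∨ q = s then 1 else 0) : (Bw R B).count c = 2 := by
  rw [count_bw hc, List.map_congr_left (g := fun q => (if q = r then 1 else 0)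
    + if q = s then 1 else 0)]
  · rw [List.sum_map_add, sum_ite_one, sum_ite_one, List.count_eq_one_of_mem hR hr,
      List.count_eq_one_of_mem hR hs]
  · intro q hq
    rw [h q hq]
    by_cases h1 : q = r
    · have h2 : q ≠ s := fun h3 => hrs (h1.symm.trans h3)
      simp [h1, hrs]
    · simp [h1]

/-- a letter with all occurrences in one block -/
theorem count_loc {c r n : ℕ} (hc : c % 3 ≠ 2) {R : List ℕ} (hR : R.Nodup) (hr : r ∈ R)
    (B : ℕ → List ℕ) (h : ∀ q ∈ R, (B q).count c = if q = r then n else 0) :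
    (Bw R B).count c = n := by
  rw [count_bw hc, List.map_congr_left (g := fun q => n * if q = r then 1 else 0)]
  · rw [List.sum_map_mul_left, sum_ite_one, List.count_eq_one_of_mem hR hr, mul_one]
  · intro q hq
    rw [h q hq]
    split_ifs <;> simp

/-! ### labels -/

theorem mem_lab {P Q : List ℕ} {q : ℕ} : q ∈ lab P Q ↔ q = 0 ∨ ∃ j ∈ P ++ Q, q = j + 1 := by
  unfold lab
  simp only [List.mem_append, List.mem_cons, List.mem_map]
  constructor
  · rintro (⟨j, hj, rfl⟩ | rfl | ⟨j, hj, rfl⟩)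
    · exact Or.inr ⟨j, Or.inl hj, rfl⟩
    · exact Or.inl rfl
    · exact Or.inr ⟨j, Or.inr hj, rfl⟩
  · rintro (rfl | ⟨j, hj | hj, rfl⟩)
    · exact Or.inr (Or.inl rfl)
    · exact Or.inl ⟨j, hj, rfl⟩
    · exact Or.inr (Or.inr ⟨j, hj, rfl⟩)

theorem lab_nodup {P Q : List ℕ} (h : (P ++ Q).Nodup) : (lab P Q).Nodup := by
  have h1 : ((P ++ Q).map (fun e => e + 1)).Nodup :=
    h.map (fun a b hab => by simpa using hab)
  have h2 : (lab P Q).Perm (0 :: (P ++ Q).map (fun e => e + 1)) := by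
    unfold lab
    rw [List.map_append]
    exact List.perm_middle
  rw [h2.nodup_iff, List.nodup_cons]
  refine ⟨?_, h1⟩
  rw [List.mem_map]
  rintro ⟨a, _, ha⟩
  omega

theorem bfr_left {P Q : List ℕ} {i : ℕ} (hi : i ∈ P) : Bfr (lab P Q) (i + 1) 0 := by
  obtain ⟨A, C, rfl⟩ := List.append_of_mem hi
  exact ⟨A.map (fun e => e + 1), C.map (fun e => e + 1), Q.map (fun e => e + 1), by simp [lab]⟩

theorem bfr_right {P Q : List ℕ} {i : ℕ} (hi : i ∈ Q) : Bfr (lab P Q) 0 (i + 1) := by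
  obtain ⟨A, C, rfl⟩ := List.append_of_mem hi
  exact ⟨P.map (fun e => e + 1), A.map (fun e => e + 1), C.map (fun e => e + 1), by simp [lab]⟩

/-! ### the configuration -/

/-- the left places -/
def pL (s1 s2 r1 r2 h : ℕ) (P1 P2 P3 : List ℕ) : List ℕ :=
  P1 ++ s1 :: r1 :: (P2 ++ s2 :: r2 :: (P3 ++ [h]))

/-- the places of the letters `z_i` -/
def pS (h z : ℕ) (P1 P2 P3 Q : List ℕ) : List ℕ := P1 ++ (P2 ++ (P3 ++ h :: (Q ++ [z])))

/-- the data -/
structure Cfg (s1 s2 r1 r2 h z : ℕ) (P1 P2 P3 Q α : List ℕ) : Prop where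
  nd : (pL s1 s2 r1 r2 h P1 P2 P3 ++ (Q ++ [z])).Nodup
  can : Can (P1 ++ (P2 ++ P3)) Q α

variable {s1 s2 r1 r2 h z : ℕ} {P1 P2 P3 Q α : List ℕ}

theorem Cfg.key (H : Cfg s1 s2 r1 r2 h z P1 P2 P3 Q α) (a : ℕ) :
    P1.count a + P2.count a + P3.count a + Q.count a + (if s1 = a then 1 else 0)
      + (if r1 = a then 1 else 0) + (if s2 = a then 1 else 0) + (if r2 = a then 1 else 0)
      + (if h = a then 1 else 0) + (if z = a then 1 else 0) ≤ 1 := by
  have h1 := List.nodup_iff_count_le_one.1 H.nd a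
  unfold pL at h1
  simp only [List.count_append, List.count_cons, List.count_nil, beq_iff_eq] at h1
  omega

/-- a place of a letter `z_i` is not one of the special places -/
theorem Cfg.ne (H : Cfg s1 s2 r1 r2 h z P1 P2 P3 Q α) {i : ℕ} (hi : i ∈ pS h z P1 P2 P3 Q) :
    i ≠ s1 ∧ i ≠ s2 ∧ i ≠ r1 ∧ i ≠ r2 := by
  have h1 := H.key i
  have h2 := List.count_pos_iff.2 hi
  unfold pS at h2
  simp only [List.count_append, List.count_cons, List.count_nil, beq_iff_eq] at h2
  refine ⟨?_, ?_, ?_, ?_⟩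
  all_goals
    rintro rfl
    rw [if_pos rfl] at h1
    omega

theorem pS_sub {i : ℕ}
    (hi : i ∈ pS h z P1 P2 P3 Q) : i ∈ pL s1 s2 r1 r2 h P1 P2 P3 ++ (Q ++ [z]) := by
  unfold pS at hi
  unfold pL
  simp only [List.mem_append, List.mem_cons, List.not_mem_nil, or_false] at hi ⊢
  tauto

/-- the places are the special ones and the places of the `z_i` -/
theorem mem_places {i : ℕ} (hi : i ∈ pL s1 s2 r1 r2 h P1 P2 P3 ++ (Q ++ [z])) :
    i ∈ pS h z P1 P2 P3 Q ∨ i = s1 ∨ i = s2 ∨ i = r1 ∨ i = r2 := by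
  unfold pL at hi
  unfold pS
  simp only [List.mem_append, List.mem_cons, List.not_mem_nil, or_false] at hi ⊢
  tauto

/-- the places of the letters of `α` -/
theorem mem_pS {i : ℕ} : i ∈ pS h z P1 P2 P3 Q ↔
    i ∈ (P1 ++ (P2 ++ P3)) ++ Q ∨ i = h ∨ i = z := by
  unfold pS
  simp only [List.mem_append, List.mem_cons, List.not_mem_nil, or_false]
  tauto

theorem Cfg.not_T (H : Cfg s1 s2 r1 r2 h z P1 P2 P3 Q α) {i : ℕ}
    (hi : i = h ∨ i = z ∨ i = s1 ∨ i = s2 ∨ i = r1 ∨ i = r2) :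
    i ∉ (P1 ++ (P2 ++ P3)) ++ Q := by
  intro h2
  have h1 := H.key i
  have h2 := List.count_pos_iff.2 h2
  simp only [List.count_append] at h2
  rcases hi with rfl | rfl | rfl | rfl | rfl | rfl
  all_goals
    rw [if_pos rfl] at h1
    omega

theorem Cfg.hz (H : Cfg s1 s2 r1 r2 h z P1 P2 P3 Q α) : h ≠ z := by
  rintro rfl
  have h1 := H.key h
  rw [if_pos rfl] at h1
  omega

/-- the local letters -/
def Loc (α : List ℕ) (a : ℕ) : Prop := a = 0 ∨ a = 3 ∨ a = 6 ∨ (a ∈ α ∧ a % 3 = 0)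

theorem Cfg.alpha_z (H : Cfg s1 s2 r1 r2 h z P1 P2 P3 Q α) (i : ℕ) :
    α.count (3 * i + 1) = if i ∈ (P1 ++ (P2 ++ P3)) ++ Q then 1 else 0 := by
  split_ifs with h1
  · exact H.can.pl i h1
  · rw [List.count_eq_zero]
    intro h2
    obtain ⟨j, hj, he⟩ := H.can.ps _ h2 (by omega)
    have : i = j := by omega
    exact h1 (this ▸ hj)

theorem Cfg.alpha_small (H : Cfg s1 s2 r1 r2 h z P1 P2 P3 Q α) {a : ℕ} (h1 : a % 3 = 0)
    (h2 : a < 27) : a ∉ α := by
  intro h3
  have := (H.can.lc a h3 h1).2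
  omega

/-- facts about the blocks -/
structure BF (s1 s2 r1 r2 h z : ℕ) (P1 P2 P3 Q α : List ℕ) (B : ℕ → List ℕ) : Prop where
  sf : ∀ r, SFr (B r)
  cz : ∀ i ∈ pS h z P1 P2 P3 Q, ∀ q ∈ lab (pL s1 s2 r1 r2 h P1 P2 P3) (Q ++ [z]),
    (B q).count (3 * i + 1) = if q = 0 ∨ q = i + 1 then 1 else 0
  cl : ∀ a, Loc α a → ∀ q ∈ lab (pL s1 s2 r1 r2 h P1 P2 P3) (Q ++ [z]),
    (B q).count a = if q = 0 then 2 else 0
  co : ∀ c, c ≠ 9 → (∀ i ∈ pS h z P1 P2 P3 Q, c ≠ 3 * i + 1) → ¬ Loc α c →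
    ∀ q ∈ lab (pL s1 s2 r1 r2 h P1 P2 P3) (Q ++ [z]), c ∉ B q
  c9 : (B 0).count 9 = 1
  n9 : ∀ q ∈ (r2 :: (P3 ++ [h])).map (fun e => e + 1) ++ (Q ++ [z]).map (fun e => e + 1),
    (B q).count 9 = 0

theorem BF.mem_blk {B : ℕ → List ℕ} (F : BF s1 s2 r1 r2 h z P1 P2 P3 Q α B) {j a : ℕ}
    (hj : j ∈ pL s1 s2 r1 r2 h P1 P2 P3 ++ (Q ++ [z])) (ha : a ∈ B (j + 1)) :
    a = 9 ∨ (j ∈ pS h z P1 P2 P3 Q ∧ a = 3 * j + 1) := by
  have hq : j + 1 ∈ lab (pL s1 s2 r1 r2 h P1 P2 P3) (Q ++ [z]) :=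
    mem_lab.2 (Or.inr ⟨j, hj, rfl⟩)
  by_cases h9 : a = 9
  · exact Or.inl h9
  · right
    by_cases h1 : ∃ i ∈ pS h z P1 P2 P3 Q, a = 3 * i + 1
    · obtain ⟨i, hi, rfl⟩ := h1
      have h2 := F.cz i hi _ hq
      have h3 := List.count_pos_iff.2 ha
      by_cases h4 : j + 1 = 0 ∨ j + 1 = i + 1
      · have h5 : j = i := by omega
        subst h5
        exact ⟨hi, rfl⟩
      · rw [if_neg h4] at h2
        omega
    · push Not at h1
      by_cases h2 : Loc α a
      · have h3 := F.cl a h2 _ hq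
        rw [if_neg (by omega)] at h3
        exact absurd ha (List.count_eq_zero.1 h3)
      · exact absurd ha (F.co a h9 h1 h2 _ hq)

theorem BF.mem_main {B : ℕ → List ℕ} (F : BF s1 s2 r1 r2 h z P1 P2 P3 Q α B) {a : ℕ}
    (ha : a ∈ B 0) : a = 9 ∨ (∃ i ∈ pS h z P1 P2 P3 Q, a = 3 * i + 1) ∨ Loc α a := by
  by_contra h1
  push Not at h1
  exact F.co a h1.1 h1.2.1 h1.2.2 0 (mem_lab.2 (Or.inl rfl)) ha

/-! ### the given word -/

/-- the blocks of the given word -/
def B0 (s1 s2 r1 r2 h z : ℕ) (α : List ℕ) (r : ℕ) : List ℕ :=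
  (if r = 0 then 6 :: 3 :: (3 * z + 1) :: 0 :: (α ++ [3, 12, 6, 3 * h + 1, 9, 0])
    else [k2 s1 s2 r1 r2 (r - 1)]).filter (fun a => decide (a ≠ 12))

theorem EV_filter (s1 s2 r1 r2 h z : ℕ) (P1 P2 P3 Q α : List ℕ) :
    (EV s1 s2 r1 r2 h z P1 P2 P3 Q
      (6 :: 3 :: (3 * z + 1) :: 0 :: (α ++ [3, 12, 6, 3 * h + 1, 9, 0]))).filter
        (fun a => decide (a ≠ 12))
      = Bw (lab (pL s1 s2 r1 r2 h P1 P2 P3) (Q ++ [z])) (B0 s1 s2 r1 r2 h z α) := by
  unfold EV Wk
  rw [bw_filter_all]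
  · rfl
  · intro r _
    rw [decide_eq_true_iff]
    omega

theorem B0_succ (j : ℕ) : B0 s1 s2 r1 r2 h z α (j + 1) =
    if j = s1 ∨ j = s2 then [9] else if j = r1 ∨ j = r2 then [] else [3 * j + 1] := by
  unfold B0 k2
  rw [if_neg (by omega), Nat.add_sub_cancel]
  split_ifs with h1 h2
  · rfl
  · rfl
  · rw [List.filter_cons_of_pos, List.filter_nil]
    rw [decide_eq_true_iff]
    omega

theorem Cfg.B0_zero (H : Cfg s1 s2 r1 r2 h z P1 P2 P3 Q α) : B0 s1 s2 r1 r2 h z α 0 =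
    6 :: 3 :: (3 * z + 1) :: 0 :: (α ++ [3, 6, 3 * h + 1, 9, 0]) := by
  unfold B0
  rw [if_pos rfl]
  have h1 : α.filter (fun a => decide (a ≠ 12)) = α := by
    rw [List.filter_eq_self]
    intro a ha
    rw [decide_eq_true_iff]
    rintro rfl
    exact H.alpha_small (by norm_num) (by norm_num) ha
  have hz : decide ((3 * z + 1) ≠ 12) = true := by rw [decide_eq_true_iff]; omega
  have hh : decide ((3 * h + 1) ≠ 12) = true := by rw [decide_eq_true_iff]; omega
  rw [List.filter_cons_of_pos (by decide), List.filter_cons_of_pos (by decide),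
    List.filter_cons_of_pos (by simpa using hz), List.filter_cons_of_pos (by decide),
    List.filter_append, h1, List.filter_cons_of_pos (by decide),
    List.filter_cons_of_neg (by decide), List.filter_cons_of_pos (by decide),
    List.filter_cons_of_pos (by simpa using hh), List.filter_cons_of_pos (by decide),
    List.filter_cons_of_pos (by decide), List.filter_nil]

end Pool.Agent.MVD.H71
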