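import Pool.Agent.Helper71_MVD.ESBb

/-!
# Squad MVD, row ESB, part 3: the blocks of the given word and of the equivalent words
-/

set_option autoImplicit false

namespace Pool.Agent.MVD.H71

open Pool.Agent.Helper14_MV Pool.Agent.Helper2_MV Pool.Agent.MVD

variable {s1 s2 r1 r2 h z : ℕ} {P1 P2 P3 Q α : List ℕ}

theorem cnt_main (h z : ℕ) (α : List ℕ) (c : ℕ) :
    (6 :: 3 :: (3 * z + 1) :: 0 :: (α ++ [3, 6, 3 * h + 1, 9, 0])).count c = α.count c
      + (if 6 = c then 2 else 0) + (if 3 = c then 2 else 0) + (if 0 = c then 2 else 0)
      + (if 9 = c then 1 else 0) + (if 3 * z + 1 = c then 1 else 0)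
      + (if 3 * h + 1 = c then 1 else 0) := by
  simp only [List.count_cons, List.count_append, List.count_nil, beq_iff_eq]
  split_ifs <;> omega

theorem nine_B0 (H : Cfg s1 s2 r1 r2 h z P1 P2 P3 Q α) (q : ℕ) :
    (B0 s1 s2 r1 r2 h z α q).count 9 = if q = s1 + 1 ∨ q = s2 + 1 ∨ q = 0 then 1 else 0 := by
  rcases Nat.eq_zero_or_pos q with h0 | h0
  · subst h0
    rw [H.B0_zero, cnt_main, List.count_eq_zero.2 (H.alpha_small (by norm_num) (by norm_num)),
      if_neg (by omega), if_neg (by omega), if_neg (by omega), if_pos rfl, if_neg (by omega),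
      if_neg (by omega), if_pos (Or.inr (Or.inr rfl))]
  · obtain ⟨j, rfl⟩ : ∃ j, q = j + 1 := ⟨q - 1, by omega⟩
    rw [B0_succ]
    by_cases h1 : j = s1 ∨ j = s2
    · rw [if_pos h1, if_pos (c := j + 1 = s1 + 1 ∨ j + 1 = s2 + 1 ∨ j + 1 = 0) (by omega)]
      rfl
    · rw [if_neg h1, if_neg (c := j + 1 = s1 + 1 ∨ j + 1 = s2 + 1 ∨ j + 1 = 0) (by omega)]
      by_cases h2 : j = r1 ∨ j = r2
      · rw [if_pos h2]
        rfl
      · rw [if_neg h2, List.count_eq_zero, List.mem_singleton]
        omega

theorem bf_B0 (H : Cfg s1 s2 r1 r2 h z P1 P2 P3 Q α) :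
    BF s1 s2 r1 r2 h z P1 P2 P3 Q α (B0 s1 s2 r1 r2 h z α) := by
  constructor
  · intro r
    rcases Nat.eq_zero_or_pos r with h0 | h0
    · subst h0
      rw [H.B0_zero]
      intro c hc
      simp only [List.mem_append, List.mem_cons, List.not_mem_nil, or_false] at hc
      rcases hc with h1 | h1 | h1 | h1 | h1 | h1 | h1 | h1 | h1 | h1
      on_goal 5 => exact H.can.sf c h1
      all_goals omega
    · obtain ⟨j, rfl⟩ : ∃ j, r = j + 1 := ⟨r - 1, by omega⟩
      rw [B0_succ]
      intro c hc
      split_ifs at hc
      · rw [List.mem_singleton] at hc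
        omega
      · exact absurd hc List.not_mem_nil
      · rw [List.mem_singleton] at hc
        omega
  · intro i hi q hq
    rcases mem_lab.1 hq with rfl | ⟨j, hj, rfl⟩
    · rw [H.B0_zero, cnt_main, H.alpha_z, if_pos (Or.inl rfl)]
      rcases mem_pS.1 hi with h1 | h1 | h1
      · have h2 : i ≠ h := fun h3 => H.not_T (Or.inl h3) h1
        have h4 : i ≠ z := fun h3 => H.not_T (Or.inr (Or.inl h3)) h1
        rw [if_pos h1, if_neg (by omega), if_neg (by omega), if_neg (by omega), if_neg (by omega),
          if_neg (by omega), if_neg (by omega)]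
      · have h2 : i ∉ (P1 ++ (P2 ++ P3)) ++ Q := H.not_T (Or.inl h1)
        have h3 := H.hz
        rw [if_neg h2, if_neg (by omega), if_neg (by omega), if_neg (by omega), if_neg (by omega),
          if_neg (by omega), if_pos (by omega)]
      · have h2 : i ∉ (P1 ++ (P2 ++ P3)) ++ Q := H.not_T (Or.inr (Or.inl h1))
        have h3 := H.hz
        rw [if_neg h2, if_neg (by omega), if_neg (by omega), if_neg (by omega), if_neg (by omega),
          if_pos (by omega), if_neg (by omega)]
    · obtain ⟨n1, n2, n3, n4⟩ := H.ne hi
      rw [B0_succ]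
      by_cases h1 : j = i
      · subst h1
        rw [if_neg (by omega), if_neg (by omega), if_pos (Or.inr rfl)]
        simp
      · rw [if_neg (c := j + 1 = 0 ∨ j + 1 = i + 1) (by omega)]
        split_ifs
        · rw [List.count_eq_zero, List.mem_singleton]
          omega
        · rfl
        · rw [List.count_eq_zero, List.mem_singleton]
          omega
  · intro a ha q hq
    have ha3 : a % 3 = 0 := by
      rcases ha with h1 | h1 | h1 | h1
      · omega
      · omega
      · omega
      · exact h1.2
    have ha9 : a ≠ 9 := by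
      rcases ha with h1 | h1 | h1 | h1
      · omega
      · omega
      · omega
      · rintro rfl
        exact H.alpha_small (by norm_num) (by norm_num) h1.1
    rcases mem_lab.1 hq with rfl | ⟨j, hj, rfl⟩
    · rw [H.B0_zero, cnt_main, if_pos rfl]
      rcases ha with h1 | h1 | h1 | h1
      · subst h1
        rw [List.count_eq_zero.2 (H.alpha_small (by norm_num) (by norm_num)), if_neg (by omega),
          if_neg (by omega), if_pos (by omega), if_neg (by omega), if_neg (by omega),
          if_neg (by omega)]
      · subst h1
        rw [List.count_eq_zero.2 (H.alpha_small (by norm_num) (by norm_num)), if_neg (by omega),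
          if_pos (by omega), if_neg (by omega), if_neg (by omega), if_neg (by omega),
          if_neg (by omega)]
      · subst h1
        rw [List.count_eq_zero.2 (H.alpha_small (by norm_num) (by norm_num)), if_pos (by omega),
          if_neg (by omega), if_neg (by omega), if_neg (by omega), if_neg (by omega),
          if_neg (by omega)]
      · obtain ⟨h2, h3⟩ := H.can.lc a h1.1 h1.2
        rw [h2, if_neg (by omega), if_neg (by omega), if_neg (by omega), if_neg (by omega),
          if_neg (by omega), if_neg (by omega)]
    · rw [B0_succ, if_neg (c := j + 1 = 0) (by omega)]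
      split_ifs
      · rw [List.count_eq_zero, List.mem_singleton]
        exact ha9
      · rfl
      · rw [List.count_eq_zero, List.mem_singleton]
        omega
  · intro c h9 hc hl q hq hcm
    rcases mem_lab.1 hq with rfl | ⟨j, hj, rfl⟩
    · rw [H.B0_zero] at hcm
      simp only [List.mem_append, List.mem_cons, List.not_mem_nil, or_false] at hcm
      rcases hcm with h1 | h1 | h1 | h1 | h1 | h1 | h1 | h1 | h1 | h1
      · exact hl (Or.inr (Or.inr (Or.inl h1)))
      · exact hl (Or.inr (Or.inl h1))
      · exact hc z (mem_pS.2 (Or.inr (Or.inr rfl))) h1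
      · exact hl (Or.inl h1)
      · have h2 := H.can.sf c h1
        by_cases h3 : c % 3 = 1
        · obtain ⟨i, hi, h4⟩ := H.can.ps c h1 h3
          exact hc i (mem_pS.2 (Or.inl hi)) h4
        · exact hl (Or.inr (Or.inr (Or.inr ⟨h1, by omega⟩)))
      · exact hl (Or.inr (Or.inl h1))
      · exact hl (Or.inr (Or.inr (Or.inl h1)))
      · exact hc h (mem_pS.2 (Or.inr (Or.inl rfl))) h1
      · exact h9 h1
      · exact hl (Or.inl h1)
    · rw [B0_succ] at hcm
      by_cases h1 : j = s1 ∨ j = s2
      · rw [if_pos h1, List.mem_singleton] at hcm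
        exact h9 hcm
      · rw [if_neg h1] at hcm
        by_cases h2 : j = r1 ∨ j = r2
        · rw [if_pos h2] at hcm
          exact absurd hcm List.not_mem_nil
        · rw [if_neg h2, List.mem_singleton] at hcm
          rcases mem_places hj with h3 | h3
          · exact hc j h3 hcm
          · omega
  · rw [nine_B0 H, if_pos (Or.inr (Or.inr rfl))]
  · intro q hq
    rw [nine_B0 H, if_neg]
    have k1 := H.key s1
    have k2 := H.key s2
    rw [if_pos rfl] at k1
    rw [if_pos (rfl : s2 = s2)] at k2
    rw [List.mem_append, List.mem_map, List.mem_map] at hq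
    rcases hq with ⟨i, hi, rfl⟩ | ⟨i, hi, rfl⟩
    · rw [List.mem_cons] at hi
      rcases hi with rfl | hi
      · rintro (h1 | h1 | h1)
        · have h2 : i = s1 := by omega
          subst h2
          simp only [if_true] at k1
          omega
        · have h2 : i = s2 := by omega
          subst h2
          simp only [if_true] at k2
          omega
        · omega
      · have h3 : i ∈ pS h z P1 P2 P3 Q := by
          unfold pS
          simp only [List.mem_append, List.mem_cons, List.not_mem_nil, or_false] at hi ⊢
          tauto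
        have := H.ne h3
        omega
    · have h3 : i ∈ pS h z P1 P2 P3 Q := by
        unfold pS
        simp only [List.mem_append, List.mem_cons, List.not_mem_nil, or_false] at hi ⊢
        tauto
      have := H.ne h3
      omega

end Pool.Agent.MVD.H71
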