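import Pool.Agent.Helper71_MVD.ESBc

/-!
# Squad MVD, row ESB, part 4: images
-/

set_option autoImplicit false

namespace Pool.Agent.MVD.H71

open Pool.Agent.Helper14_MV Pool.Agent.Helper2_MV Pool.Agent.MVD

variable {s1 s2 r1 r2 h z : ℕ} {P1 P2 P3 Q α : List ℕ}

/-- all letters are `c` except the erased ones -/
theorem filter_one {p : ℕ → Bool} {c : ℕ} {l : List ℕ} (hp : p c = true)
    (h1 : ∀ a ∈ l, p a = true → a = c) (h2 : l.count c = 1) : l.filter p = [c] := by
  have h3 : l.filter p = l.filter (fun a => a == c) := by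
    apply List.filter_congr
    intro a ha
    cases h4 : p a with
    | true => rw [h1 a ha h4]; simp
    | false =>
      have h5 : a ≠ c := by
        rintro rfl
        rw [hp] at h4
        exact absurd h4 (by decide)
      simp [h5]
  rw [h3, List.filter_beq, h2]
  rfl

/-! ### the letters of `α` -/

/-- the letters of `α` and the separators of their places -/
def T2 (P1 P2 P3 Q α : List ℕ) (c : ℕ) : Bool :=
  decide (c ∈ α ∨ c = 2 ∨ c ∈ ((P1 ++ (P2 ++ P3)) ++ Q).map (fun i => 3 * (i + 1) + 2))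

theorem T2_sfr {c : ℕ} (hc : c % 3 ≠ 2) : T2 P1 P2 P3 Q α c = decide (c ∈ α) := by
  unfold T2
  apply decide_eq_decide.2
  constructor
  · rintro (h1 | h1 | h1)
    · exact h1
    · omega
    · rw [List.mem_map] at h1
      obtain ⟨i, -, h2⟩ := h1
      omega
  · exact Or.inl

theorem Cfg.T2_sep (H : Cfg s1 s2 r1 r2 h z P1 P2 P3 Q α) (j : ℕ) :
    T2 P1 P2 P3 Q α (3 * (j + 1) + 2) = decide (j ∈ (P1 ++ (P2 ++ P3)) ++ Q) := by
  unfold T2
  apply decide_eq_decide.2
  constructor
  · rintro (h1 | h1 | h1)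
    · exact absurd (H.can.sf _ h1) (by omega)
    · omega
    · rw [List.mem_map] at h1
      obtain ⟨i, h3, h2⟩ := h1
      have : i = j := by omega
      exact this ▸ h3
  · intro h1
    exact Or.inr (Or.inr (List.mem_map.2 ⟨j, h1, rfl⟩))

theorem Cfg.mem_alpha (H : Cfg s1 s2 r1 r2 h z P1 P2 P3 Q α) {j : ℕ} :
    3 * j + 1 ∈ α ↔ j ∈ (P1 ++ (P2 ++ P3)) ++ Q := by
  have h1 := H.alpha_z j
  rw [← List.count_pos_iff, h1]
  split_ifs with h2
  · exact ⟨fun _ => h2, fun _ => one_pos⟩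
  · exact ⟨fun h => absurd h (lt_irrefl 0), fun h => absurd h h2⟩

theorem Cfg.lab_filter (H : Cfg s1 s2 r1 r2 h z P1 P2 P3 Q α) :
    (lab (pL s1 s2 r1 r2 h P1 P2 P3) (Q ++ [z])).filter
      (fun r => T2 P1 P2 P3 Q α (3 * r + 2)) = lab (P1 ++ (P2 ++ P3)) Q := by
  obtain ⟨p, hp⟩ : ∃ p : ℕ → Bool, p = fun r => T2 P1 P2 P3 Q α (3 * r + 2) := ⟨_, rfl⟩
  have hall : ∀ X : List ℕ, (∀ i ∈ X, i ∈ (P1 ++ (P2 ++ P3)) ++ Q) →
      (X.map (fun e => e + 1)).filter p = X.map (fun e => e + 1) := by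
    intro X hX
    rw [List.filter_eq_self]
    intro a ha
    obtain ⟨i, hi, rfl⟩ := List.mem_map.1 ha
    rw [hp]
    show T2 P1 P2 P3 Q α (3 * (i + 1) + 2) = true
    rw [H.T2_sep, decide_eq_true_iff]
    exact hX i hi
  have hno : ∀ i, (i = h ∨ i = z ∨ i = s1 ∨ i = s2 ∨ i = r1 ∨ i = r2) →
      ¬ p (i + 1) = true := by
    intro i hi
    rw [hp]
    show ¬ T2 P1 P2 P3 Q α (3 * (i + 1) + 2) = true
    rw [H.T2_sep, decide_eq_true_iff]
    exact H.not_T hi
  have h0 : p 0 = true := by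
    rw [hp]
    unfold T2
    simp
  rw [← hp]
  unfold lab pL
  simp only [List.map_append, List.map_cons, List.map_nil, List.filter_append]
  rw [hall P1 (fun i hi => by simp [hi])]
  rw [List.filter_cons_of_neg (hno s1 (by tauto)), List.filter_cons_of_neg (hno r1 (by tauto)),
    List.filter_append, hall P2 (fun i hi => by simp [hi]),
    List.filter_cons_of_neg (hno s2 (by tauto)), List.filter_cons_of_neg (hno r2 (by tauto)),
    List.filter_append, hall P3 (fun i hi => by simp [hi]),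
    List.filter_cons_of_neg (hno h (by tauto)), List.filter_nil, List.append_nil,
    List.filter_cons_of_pos h0, List.filter_append, hall Q (fun i hi => by simp [hi]),
    List.filter_cons_of_neg (hno z (by tauto)), List.filter_nil, List.append_nil]

theorem BF.img2 {B : ℕ → List ℕ} (F : BF s1 s2 r1 r2 h z P1 P2 P3 Q α B)
    (H : Cfg s1 s2 r1 r2 h z P1 P2 P3 Q α) :
    (Bw (lab (pL s1 s2 r1 r2 h P1 P2 P3) (Q ++ [z])) B).filter (T2 P1 P2 P3 Q α)
      = Wm (P1 ++ (P2 ++ P3)) Q ((B 0).filter (fun a => decide (a ∈ α))) := by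
  have h9 : T2 P1 P2 P3 Q α 9 = false := by
    rw [T2_sfr (by norm_num), decide_eq_false_iff_not]
    exact H.alpha_small (by norm_num) (by norm_num)
  rw [bw_erase _ _ (fun r => if r = 0 then (B 0).filter (fun a => decide (a ∈ α))
    else [3 * (r - 1) + 1])]
  · rw [H.lab_filter]
    rfl
  · intro r hr hT
    rcases mem_lab.1 hr with rfl | ⟨j, hj, rfl⟩
    · rw [if_pos rfl]
      apply List.filter_congr
      intro c hc
      exact T2_sfr (F.sf 0 c hc)
    · rw [H.T2_sep, decide_eq_true_iff] at hT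
      have hjS : j ∈ pS h z P1 P2 P3 Q := mem_pS.2 (Or.inl hT)
      rw [if_neg (by omega), Nat.add_sub_cancel]
      refine filter_one ?_ ?_ ?_
      · rw [T2_sfr (by omega), decide_eq_true_iff, H.mem_alpha]
        exact hT
      · intro a ha hTa
        rcases F.mem_blk hj ha with h1 | h1
        · rw [h1, h9] at hTa
          exact absurd hTa (by decide)
        · exact h1.2
      · rw [F.cz j hjS _ hr, if_pos (Or.inr rfl)]
  · intro r hr hT
    rcases mem_lab.1 hr with rfl | ⟨j, hj, rfl⟩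
    · exact absurd hT (by
        unfold T2
        simp)
    · rw [H.T2_sep, decide_eq_false_iff_not] at hT
      rw [List.filter_eq_nil_iff]
      intro a ha
      rcases F.mem_blk hj ha with h1 | h1
      · rw [h1, h9]
        decide
      · rw [h1.2, T2_sfr (by omega), decide_eq_true_iff, H.mem_alpha]
        exact hT

theorem BF.perm {B : ℕ → List ℕ} (F : BF s1 s2 r1 r2 h z P1 P2 P3 Q α B)
    (H : Cfg s1 s2 r1 r2 h z P1 P2 P3 Q α) :
    ((B 0).filter (fun a => decide (a ∈ α))).Perm α := by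
  have h0 : 0 ∈ lab (pL s1 s2 r1 r2 h P1 P2 P3) (Q ++ [z]) := mem_lab.2 (Or.inl rfl)
  rw [List.perm_iff_count]
  intro a
  by_cases ha : a ∈ α
  · rw [List.count_filter (by simpa using ha)]
    have h1 := H.can.sf a ha
    by_cases h2 : a % 3 = 1
    · obtain ⟨i, hi, rfl⟩ := H.can.ps a ha h2
      rw [F.cz i (mem_pS.2 (Or.inl hi)) 0 h0, if_pos (Or.inl rfl), H.can.pl i hi]
    · have h3 : a % 3 = 0 := by omega
      rw [F.cl a (Or.inr (Or.inr (Or.inr ⟨ha, h3⟩))) 0 h0, if_pos rfl, (H.can.lc a ha h3).1]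
  · rw [List.count_eq_zero.2 ha, List.count_eq_zero]
    intro h1
    exact ha (by simpa using (List.mem_filter.1 h1).2)

theorem Cfg.B0_alpha (H : Cfg s1 s2 r1 r2 h z P1 P2 P3 Q α) :
    (B0 s1 s2 r1 r2 h z α 0).filter (fun a => decide (a ∈ α)) = α := by
  obtain ⟨p, hp⟩ : ∃ p : ℕ → Bool, p = fun a => decide (a ∈ α) := ⟨_, rfl⟩
  have hno : ∀ a, a % 3 = 0 → a < 27 → ¬ p a = true := by
    intro a h1 h2
    rw [hp, decide_eq_true_iff]
    exact H.alpha_small h1 h2
  have hh : ¬ p (3 * h + 1) = true := by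
    rw [hp, decide_eq_true_iff, H.mem_alpha]
    exact H.not_T (Or.inl rfl)
  have hz : ¬ p (3 * z + 1) = true := by
    rw [hp, decide_eq_true_iff, H.mem_alpha]
    exact H.not_T (Or.inr (Or.inl rfl))
  rw [← hp, H.B0_zero, List.filter_cons_of_neg (hno 6 (by norm_num) (by norm_num)),
    List.filter_cons_of_neg (hno 3 (by norm_num) (by norm_num)), List.filter_cons_of_neg hz,
    List.filter_cons_of_neg (hno 0 (by norm_num) (by norm_num)), List.filter_append,
    List.filter_cons_of_neg (hno 3 (by norm_num) (by norm_num)),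
    List.filter_cons_of_neg (hno 6 (by norm_num) (by norm_num)),
    List.filter_cons_of_neg hh, List.filter_cons_of_neg (hno 9 (by norm_num) (by norm_num)),
    List.filter_cons_of_neg (hno 0 (by norm_num) (by norm_num)), List.filter_nil,
    List.append_nil, List.filter_eq_self]
  intro a ha
  rw [hp]
  simpa using ha

/-! ### the letters of `E0` -/

/-- the erased letters -/
def er (h z c : ℕ) : Prop := c = 3 ∨ c = 6 ∨ c = 3 * h + 1 ∨ c = 3 * z + 1

instance (h z c : ℕ) : Decidable (er h z c) := by unfold er; infer_instance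

/-- the substitution -/
def f1 (s1 s2 r1 r2 h z : ℕ) (c : ℕ) : List ℕ :=
  if er h z c then [] else
  if c = 3 * (s1 + 1) + 2 ∨ c = 3 * (s2 + 1) + 2 ∨ c = 3 * (h + 1) + 2 ∨ c = 3 * (z + 1) + 2 then []
  else if c = 3 * (r1 + 1) + 2 then [3 * (s1 + 1) + 2]
  else if c = 3 * (r2 + 1) + 2 then [3 * (s2 + 1) + 2] else [c]

theorem f1_sfr : ∀ {l : List ℕ}, SFr l →
    l.flatMap (f1 s1 s2 r1 r2 h z) = l.filter (fun c => decide (¬ er h z c)) := by
  intro l
  induction l with
  | nil => intro _; rfl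
  | cons a l ih =>
    intro hl
    have h1 := hl a (by simp)
    rw [List.flatMap_cons, ih (fun c hc => hl c (List.mem_cons_of_mem _ hc))]
    unfold f1
    by_cases h2 : er h z a
    · rw [if_pos h2, List.filter_cons_of_neg (by simpa using h2), List.nil_append]
    · rw [if_neg h2, if_neg (by omega), if_neg (by omega), if_neg (by omega),
        List.filter_cons_of_pos (by simpa using h2)]
      rfl

theorem Cfg.img1 (H : Cfg s1 s2 r1 r2 h z P1 P2 P3 Q α) (B B'' : ℕ → List ℕ)
    (hT : ∀ i ∈ (P1 ++ (P2 ++ P3)) ++ Q, (B (i + 1)).flatMap (f1 s1 s2 r1 r2 h z) = B'' (i + 1))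
    (h0 : (B 0).flatMap (f1 s1 s2 r1 r2 h z) = B'' 0)
    (hs1 : (B (s1 + 1)).flatMap (f1 s1 s2 r1 r2 h z) ++
      (B (r1 + 1)).flatMap (f1 s1 s2 r1 r2 h z) = B'' (s1 + 1))
    (hs2 : (B (s2 + 1)).flatMap (f1 s1 s2 r1 r2 h z) ++
      (B (r2 + 1)).flatMap (f1 s1 s2 r1 r2 h z) = B'' (s2 + 1))
    (hh : (B (h + 1)).flatMap (f1 s1 s2 r1 r2 h z) = [])
    (hz : (B (z + 1)).flatMap (f1 s1 s2 r1 r2 h z) = []) :
    (Bw (lab (pL s1 s2 r1 r2 h P1 P2 P3) (Q ++ [z])) B).flatMap (f1 s1 s2 r1 r2 h z)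
      = Bw (lab (P1 ++ s1 :: (P2 ++ s2 :: P3)) Q) B'' := by
  have hall : ∀ X : List ℕ, (∀ i ∈ X, i ∈ (P1 ++ (P2 ++ P3)) ++ Q) →
      (Bw (X.map (fun e => e + 1)) B).flatMap (f1 s1 s2 r1 r2 h z)
        = Bw (X.map (fun e => e + 1)) B'' := by
    intro X hX
    refine bw_sub _ _ _ _ ?_ ?_
    · intro r hr
      obtain ⟨i, hi, rfl⟩ := List.mem_map.1 hr
      have k1 := fun hh => H.not_T (i := i) hh (hX i hi)
      have hne : ¬ er h z (3 * (i + 1) + 2) := by unfold er; omega
      unfold f1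
      rw [if_neg hne, if_neg, if_neg, if_neg]
      · intro hc
        exact k1 (by omega)
      · intro hc
        exact k1 (by omega)
      · intro hc
        exact k1 (by omega)
    · intro r hr
      obtain ⟨i, hi, rfl⟩ := List.mem_map.1 hr
      exact hT i (hX i hi)
  have hne : ∀ j, ¬ er h z (3 * j + 2) := by intro j; unfold er; omega
  have e1 : f1 s1 s2 r1 r2 h z (3 * (s1 + 1) + 2) = [] := by
    unfold f1; rw [if_neg (hne _), if_pos (Or.inl rfl)]
  have e2 : f1 s1 s2 r1 r2 h z (3 * (s2 + 1) + 2) = [] := by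
    unfold f1; rw [if_neg (hne _), if_pos (Or.inr (Or.inl rfl))]
  have e3 : f1 s1 s2 r1 r2 h z (3 * (h + 1) + 2) = [] := by
    unfold f1; rw [if_neg (hne _), if_pos (Or.inr (Or.inr (Or.inl rfl)))]
  have e4 : f1 s1 s2 r1 r2 h z (3 * (z + 1) + 2) = [] := by
    unfold f1; rw [if_neg (hne _), if_pos (Or.inr (Or.inr (Or.inr rfl)))]
  have k1 := H.key r1
  have k2 := H.key r2
  have e5 : f1 s1 s2 r1 r2 h z (3 * (r1 + 1) + 2) = [3 * (s1 + 1) + 2] := by
    unfold f1
    rw [if_neg (hne _), if_neg, if_pos rfl]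
    rintro (h1 | h1 | h1 | h1)
    · rw [if_pos (by omega), if_pos rfl] at k1; omega
    · rw [if_pos (rfl : r1 = r1), if_pos (by omega : s2 = r1)] at k1; omega
    · rw [if_pos (rfl : r1 = r1), if_pos (by omega : h = r1)] at k1; omega
    · rw [if_pos (rfl : r1 = r1), if_pos (by omega : z = r1)] at k1; omega
  have e6 : f1 s1 s2 r1 r2 h z (3 * (r2 + 1) + 2) = [3 * (s2 + 1) + 2] := by
    unfold f1
    rw [if_neg (hne _), if_neg, if_neg, if_pos rfl]
    · intro h1
      rw [if_pos (rfl : r2 = r2), if_pos (by omega : r1 = r2)] at k2; omega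
    · rintro (h1 | h1 | h1 | h1)
      · rw [if_pos (rfl : r2 = r2), if_pos (by omega : s1 = r2)] at k2; omega
      · rw [if_pos (rfl : r2 = r2), if_pos (by omega : s2 = r2)] at k2; omega
      · rw [if_pos (rfl : r2 = r2), if_pos (by omega : h = r2)] at k2; omega
      · rw [if_pos (rfl : r2 = r2), if_pos (by omega : z = r2)] at k2; omega
  have e7 : f1 s1 s2 r1 r2 h z (3 * 0 + 2) = [3 * 0 + 2] := by
    unfold f1
    rw [if_neg (hne _), if_neg (by omega), if_neg (by omega), if_neg (by omega)]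
  unfold lab pL
  simp only [List.map_append, List.map_cons, List.map_nil, bw_append, bw_cons, bw_nil,
    List.flatMap_append, List.flatMap_cons, List.flatMap_nil]
  rw [hall P1 (fun i hi => by simp [hi]), hall P2 (fun i hi => by simp [hi]),
    hall P3 (fun i hi => by simp [hi]), hall Q (fun i hi => by simp [hi]), e1, e2, e3, e4, e5,
    e6, e7, hh, hz, h0, ← hs1, ← hs2]
  simp only [List.append_assoc, List.nil_append, List.append_nil, List.cons_append]

end Pool.Agent.MVD.H71
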